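import Pool.Agent.Helper29.HQ.POS

/-!
# HQ: the area under `g2` (AREA2)
-/

set_option autoImplicit false

open MeasureTheory Filter Topology ProbabilityTheory
open scoped ENNReal NNReal

namespace Pool.Agent.Helper29.HQ.AREA2

open Pool.Agent.Helper98.HQ

/-- the area of a triangle -/
theorem tri (c y : ℝ) (hc : 0 < c) (hy : 0 ≤ y) :
    ENNReal.ofReal (y ^ 2 / (2 * c)) ≤ ∫⁻ x in Set.Ioi (0 : ℝ), ENNReal.ofReal (y - x * c) := by
  have hyc : 0 ≤ y / c := div_nonneg hy hc.le
  have h1 : ∫ x in Set.Ioc 0 (y / c), (y - x * c) = y ^ 2 / (2 * c) := by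
    have ha : IntervalIntegrable (fun _ : ℝ => y) volume 0 (y / c) :=
      continuous_const.intervalIntegrable _ _
    have hb : IntervalIntegrable (fun x : ℝ => x * c) volume 0 (y / c) :=
      (continuous_id.mul continuous_const).intervalIntegrable _ _
    rw [← intervalIntegral.integral_of_le hyc, intervalIntegral.integral_sub ha hb]
    simp only [intervalIntegral.integral_const, intervalIntegral.integral_mul_const, integral_id,
      smul_eq_mul]
    field_simp
    ring
  have hcont : Continuous fun x : ℝ => y - x * c := by fun_prop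
  have h2 : ENNReal.ofReal (∫ x in Set.Ioc 0 (y / c), (y - x * c)) =
      ∫⁻ x in Set.Ioc 0 (y / c), ENNReal.ofReal (y - x * c) := by
    apply ofReal_integral_eq_lintegral_ofReal
    · exact (hcont.integrableOn_Icc (a := 0) (b := y / c)).mono_set Set.Ioc_subset_Icc_self
    · refine (ae_restrict_iff' measurableSet_Ioc).2 (Eventually.of_forall fun x hx => ?_)
      have h3 : x ≤ y / c := hx.2
      rw [le_div_iff₀ hc] at h3
      simp only [Pi.zero_apply]
      linarith
  rw [← h1, h2]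
  exact lintegral_mono_set Set.Ioc_subset_Ioi_self

theorem main : S_AREA2 := by
  intro m ν β hm hν hβ
  have := hν.prob
  set A := ∫ u, u.1 ∂ν with hA
  set B := ∫ u, u.2 ∂ν with hB
  have hm0 : (0 : ℝ) < m := by exact_mod_cast hm
  set c := A + max (B - m * A) 0 / m with hc
  have hc0 : 0 < c := by
    have h1 : 0 ≤ max (B - m * A) 0 / m := div_nonneg (le_max_right _ _) hm0.le
    have h2 : 0 < A := hν.Tpos
    linarith
  have hg : ∀ x y, g2 m A B x y = y - x * c := fun x y => rfl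
  simp only [hg]
  have hmeas : Measurable (fun z : ℝ × (ℕ → ℝ × ℝ) =>
      ENNReal.ofReal (β * (z.2 0).2 - z.1 * c)) := by
    apply ENNReal.measurable_ofReal.comp
    refine Measurable.sub ?_ (measurable_fst.mul_const c)
    exact (measurable_snd.comp ((measurable_pi_apply 0).comp measurable_snd)).const_mul β
  rw [lintegral_lintegral_swap hmeas.aemeasurable]
  have hmp : MeasurePreserving (Function.eval 0) (Measure.infinitePi fun _ : ℕ => ν) ν :=
    measurePreserving_eval_infinitePi (fun _ : ℕ => ν) 0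
  have hnn : ∀ᵐ ω ∂(Measure.infinitePi fun _ : ℕ => ν), 0 ≤ (ω 0).2 :=
    hmp.quasiMeasurePreserving.ae (hν.nn.mono fun u hu => hu.2)
  have h1 : ∫⁻ ω : ℕ → ℝ × ℝ, ENNReal.ofReal ((β * (ω 0).2) ^ 2 / (2 * c))
      ∂(Measure.infinitePi fun _ : ℕ => ν) ≤ ∫⁻ ω : ℕ → ℝ × ℝ, (∫⁻ x in Set.Ioi (0 : ℝ),
        ENNReal.ofReal (β * (ω 0).2 - x * c)) ∂(Measure.infinitePi fun _ : ℕ => ν) := by
    apply lintegral_mono_ae
    filter_upwards [hnn] with ω hω
    exact tri c _ hc0 (mul_nonneg hβ.le hω)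
  refine le_trans (le_of_eq ?_) h1
  have h2 : ∫⁻ ω : ℕ → ℝ × ℝ, ENNReal.ofReal ((β * (ω 0).2) ^ 2 / (2 * c))
      ∂(Measure.infinitePi fun _ : ℕ => ν) = ∫⁻ u, ENNReal.ofReal ((β * u.2) ^ 2 / (2 * c)) ∂ν := by
    have h3 : Measurable fun u : ℝ × ℝ => ENNReal.ofReal ((β * u.2) ^ 2 / (2 * c)) := by
      fun_prop
    have h4 := lintegral_map (μ := Measure.infinitePi fun _ : ℕ => ν) h3 hmp.measurable
    rw [hmp.map_eq] at h4
    exact h4.symm
  rw [h2, ← ofReal_integral_eq_lintegral_ofReal]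
  · congr 1
    have h5 : ∀ u : ℝ × ℝ, (β * u.2) ^ 2 / (2 * c) = β ^ 2 / (2 * c) * u.2 ^ 2 := by
      intro u; ring
    simp only [h5]
    rw [integral_const_mul, L2v, ← hc]
    ring
  · have h5 : ∀ u : ℝ × ℝ, (β * u.2) ^ 2 / (2 * c) = β ^ 2 / (2 * c) * u.2 ^ 2 := by
      intro u; ring
    simp only [h5]
    exact hν.S2.const_mul _
  · exact Eventually.of_forall fun u => by positivity

end Pool.Agent.Helper29.HQ.AREA2
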