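import Pool.Agent.Helper98.HQ.Spec

/-!
# HQ: positive probability of good inputs (POS)
-/

set_option autoImplicit false

open MeasureTheory Filter Topology
open scoped ENNReal NNReal

namespace Pool.Agent.Helper29.HQ

open Pool.Agent.Helper98.HQ

theorem int1 {k : ℕ} {ν : Measure (ℝ × ℝ)} (h : Inp k ν) :
    Integrable (fun u : ℝ × ℝ => u.1) ν := by
  have := h.prob
  exact ((memLp_two_iff_integrable_sq measurable_fst.aestronglyMeasurable).2 h.T2).integrable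
    one_le_two

theorem int2 {k : ℕ} {ν : Measure (ℝ × ℝ)} (h : Inp k ν) :
    Integrable (fun u : ℝ × ℝ => u.2) ν := by
  have := h.prob
  exact ((memLp_two_iff_integrable_sq measurable_snd.aestronglyMeasurable).2 h.S2).integrable
    one_le_two

namespace POS

theorem main : S_POS := by
  intro k ν hk hν
  by_contra hc
  push Not at hc
  have hk0 : (0 : ℝ) < k := by exact_mod_cast hk
  have h0 : ∀ q : ℚ × ℚ, ∀ᵐ u ∂ν, (0 : ℝ) ≤ q.1 → (0 : ℝ) < q.2 → (q.1 : ℝ) < k * q.2 →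
      ¬ (0 ≤ u.2 ∧ u.2 ≤ (q.1 : ℝ) ∧ (q.2 : ℝ) ≤ u.1) := by
    intro q
    by_cases h1 : (0 : ℝ) ≤ q.1
    · by_cases h2 : (0 : ℝ) < q.2
      · by_cases h3 : (q.1 : ℝ) < k * q.2
        · have h4 := hc q.1 q.2 h1 h2 h3
          have h5 : ν {u : ℝ × ℝ | 0 ≤ u.2 ∧ u.2 ≤ (q.1 : ℝ) ∧ (q.2 : ℝ) ≤ u.1} = 0 :=
            le_antisymm h4 bot_le
          have h6 : ∀ᵐ u ∂ν, ¬ (0 ≤ u.2 ∧ u.2 ≤ (q.1 : ℝ) ∧ (q.2 : ℝ) ≤ u.1) := by
            rw [ae_iff]
            simpa using h5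
          filter_upwards [h6] with u hu _ _ _
          exact hu
        · exact Eventually.of_forall fun u _ _ h => absurd h h3
      · exact Eventually.of_forall fun u _ h => absurd h h2
    · exact Eventually.of_forall fun u h => absurd h h1
  have h1 : ∀ᵐ u ∂ν, (k : ℝ) * u.1 ≤ u.2 := by
    filter_upwards [ae_all_iff.2 h0, hν.nn] with u hu hn
    by_contra hlt
    push Not at hlt
    obtain ⟨t0, ht1, ht2⟩ := exists_rat_btwn (show u.2 / k < u.1 by
      rw [div_lt_iff₀ hk0, mul_comm]; exact hlt)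
    obtain ⟨s0, hs1, hs2⟩ := exists_rat_btwn (show u.2 < k * (t0 : ℝ) by
      rw [div_lt_iff₀ hk0, mul_comm] at ht1; exact ht1)
    have ht0 : (0 : ℝ) < t0 := lt_of_le_of_lt (div_nonneg hn.2 hk0.le) ht1
    exact hu (s0, t0) (hn.2.trans hs1.le) ht0 hs2 ⟨hn.2, hs1.le, ht2.le⟩
  have h2 : ∫ u, (k : ℝ) * u.1 ∂ν ≤ ∫ u, u.2 ∂ν :=
    integral_mono_ae ((int1 hν).const_mul _) (int2 hν) h1
  rw [integral_const_mul] at h2
  exact absurd hν.stab (not_lt.2 h2)

end POS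

end Pool.Agent.Helper29.HQ
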