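import Pool.Agent.Helper98.HQ.Spec

/-!
# HQ: the perturbed chain (RED3)
-/

set_option autoImplicit false

open MeasureTheory Filter Topology ProbabilityTheory
open scoped ENNReal NNReal

namespace Pool.Agent.Helper29.HQ.RED3

open Pool.Agent.Helper98.HQ

/-- integrals against the perturbed law -/
theorem lint_pert (β ε : ℝ) (μS : Measure ℝ) (f : ℝ → ℝ≥0∞) (hf : Measurable f) :
    ∫⁻ s, f s ∂(pert β ε μS) =
      ENNReal.ofReal (1 / (1 + ε ^ 2)) * ∫⁻ s, f ((1 - β * ε) * s) ∂μS +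
      ENNReal.ofReal (ε ^ 2 / (1 + ε ^ 2)) * ∫⁻ s, f ((1 + β / ε) * s) ∂μS := by
  rw [pert, lintegral_add_measure, lintegral_smul_measure, lintegral_smul_measure,
    lintegral_map hf (by fun_prop), lintegral_map hf (by fun_prop)]
  simp only [smul_eq_mul, mul_comm]

instance {β ε : ℝ} {μS : Measure ℝ} [SFinite μS] : SFinite (pert β ε μS) := by
  unfold pert
  infer_instance

theorem main (hKWM : S_KWM) : S_RED3 := by
  intro k μT μS β ε π hsys hβ hε hβε hst
  have hT := hsys.pT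
  have hS := hsys.pS
  have hπ := hst.prob
  have hkw : Measurable (fun x : (Fin k → ℝ) × ℝ × ℝ => kw x.1 x.2.2 x.2.1) := (hKWM.1 k).measurable
  refine ⟨hst.prob, hst.adm, fun h hh => ?_⟩
  set ν := μT.prod μS with hν
  have hνp : IsProbabilityMeasure ν := by rw [hν]; infer_instance
  have hop : ∀ c : ℝ, Measurable (op ν c h) := fun c => hKWM.2.2.1 k ν c h hνp hh 1
  have hpp : 1 - pp ε = 1 / (1 + ε ^ 2) := by
    unfold pp
    have : 1 + ε ^ 2 ≠ 0 := by positivity
    field_simp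
    ring
  -- the inner integral
  have hnn : ∀ᵐ u ∂ν, 0 ≤ u.1 ∧ 0 ≤ u.2 := by
    have h1 : ∀ᵐ u ∂ν, 0 ≤ u.1 := Measure.quasiMeasurePreserving_fst.ae hsys.T0
    have h2 : ∀ᵐ u ∂ν, 0 ≤ u.2 := Measure.quasiMeasurePreserving_snd.ae hsys.S0
    filter_upwards [h1, h2] with u a b
    exact ⟨a, b⟩
  have hopc : ∀ (c : ℝ) (w : Fin k → ℝ), op ν c h w =
      ∫⁻ t, ∫⁻ s, h (kw w (c * s) t) ∂μS ∂μT := by
    intro c w
    have hm : Measurable fun u : ℝ × ℝ => h (kw w (c * u.2) u.1) := by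
      have h1 : Measurable fun u : ℝ × ℝ => (w, (u.1, c * u.2)) := by fun_prop
      exact hh.comp (hkw.comp h1)
    rw [← lintegral_prod _ hm.aemeasurable]
    refine lintegral_congr_ae ?_
    filter_upwards [hnn] with u hu
    rw [stp, max_eq_left hu.1, max_eq_left hu.2]
  have hin : ∀ w : Fin k → ℝ, ∫⁻ u, h (kw w u.2 u.1) ∂(μT.prod (pert β ε μS)) =
      ENNReal.ofReal (1 - pp ε) * op ν (1 - β * ε) h w +
      ENNReal.ofReal (pp ε) * op ν (1 + β / ε) h w := by
    intro w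
    have hm : Measurable fun u : ℝ × ℝ => h (kw w u.2 u.1) := by
      have h1 : Measurable fun u : ℝ × ℝ => (w, (u.1, u.2)) := by fun_prop
      exact hh.comp (hkw.comp h1)
    have hm2 : ∀ c : ℝ, Measurable fun t : ℝ => ∫⁻ s, h (kw w (c * s) t) ∂μS := by
      intro c
      have h1 : Measurable fun u : ℝ × ℝ => (w, (u.1, c * u.2)) := by fun_prop
      exact (hh.comp (hkw.comp h1)).lintegral_prod_right'
    rw [lintegral_prod _ hm.aemeasurable, hopc, hopc, hpp]
    have h3 : ∀ t : ℝ, ∫⁻ s, h (kw w s t) ∂(pert β ε μS) =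
        ENNReal.ofReal (1 / (1 + ε ^ 2)) * ∫⁻ s, h (kw w ((1 - β * ε) * s) t) ∂μS +
        ENNReal.ofReal (ε ^ 2 / (1 + ε ^ 2)) * ∫⁻ s, h (kw w ((1 + β / ε) * s) t) ∂μS := by
      intro t
      have hm3 : Measurable fun s : ℝ => h (kw w s t) := by
        have h1 : Measurable fun s : ℝ => (w, (t, s)) := by fun_prop
        exact hh.comp (hkw.comp h1)
      exact lint_pert β ε μS _ hm3
    rw [lintegral_congr h3, lintegral_add_left ((hm2 _).const_mul _),
      lintegral_const_mul _ (hm2 _), lintegral_const_mul _ (hm2 _)]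
    rfl
  calc ∫⁻ w, h w ∂π = ∫⁻ x, h (kw x.1 x.2.2 x.2.1) ∂(π.prod (μT.prod (pert β ε μS))) := by
        have h1 := lintegral_map (μ := π.prod (μT.prod (pert β ε μS))) hh hkw
        rw [hst.stat] at h1
        exact h1
    _ = ∫⁻ w, ∫⁻ u, h (kw w u.2 u.1) ∂(μT.prod (pert β ε μS)) ∂π :=
        lintegral_prod _ (hh.comp hkw).aemeasurable
    _ = ∫⁻ w, (ENNReal.ofReal (1 - pp ε) * op ν (1 - β * ε) h w +
          ENNReal.ofReal (pp ε) * op ν (1 + β / ε) h w) ∂π := lintegral_congr hin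
    _ = _ := by
        rw [lintegral_add_left ((hop _).const_mul _), lintegral_const_mul _ (hop _),
          lintegral_const_mul _ (hop _)]

end Pool.Agent.Helper29.HQ.RED3
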