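import Pool.Agent.Helper29.HQ.POS

/-!
# HQ: the strong law (SLLN)
-/

set_option autoImplicit false

open MeasureTheory Filter Topology ProbabilityTheory
open scoped ENNReal NNReal

namespace Pool.Agent.Helper29.HQ.SLLN

open Pool.Agent.Helper98.HQ

theorem sum_shift (f : ℕ → ℝ) (n : ℕ) :
    ∑ j ∈ Finset.Icc 1 n, f j = ∑ i ∈ Finset.range n, f (i + 1) := by
  induction n with
  | zero => simp
  | succ n ih => rw [Finset.sum_Icc_succ_top (by omega), ih, Finset.sum_range_succ]

theorem law (ν : Measure (ℝ × ℝ)) [IsProbabilityMeasure ν] (X : ℝ × ℝ → ℝ) (hX : Measurable X)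
    (hi : Integrable X ν) :
    ∀ᵐ ω ∂(Measure.infinitePi fun _ : ℕ => ν),
      Tendsto (fun n : ℕ => (∑ j ∈ Finset.Icc 1 n, X (ω j)) / n) atTop (𝓝 (∫ u, X u ∂ν)) := by
  have hmp : ∀ i : ℕ, MeasurePreserving (Function.eval i)
      (Measure.infinitePi fun _ : ℕ => ν) ν := fun i =>
    measurePreserving_eval_infinitePi (fun _ : ℕ => ν) i
  have hind := iIndepFun_infinitePi (P := fun _ : ℕ => ν) (X := fun _ : ℕ => X) fun _ => hX
  have h := strong_law_ae_real (μ := Measure.infinitePi fun _ : ℕ => ν)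
    (fun i (ω : ℕ → ℝ × ℝ) => X (ω (i + 1))) ?_ ?_ ?_
  · have h1 : ∫ ω, X (ω (0 + 1)) ∂(Measure.infinitePi fun _ : ℕ => ν) = ∫ u, X u ∂ν := by
      have h2 := integral_map (μ := Measure.infinitePi fun _ : ℕ => ν) (hmp 1).measurable.aemeasurable
        (f := X) hX.aestronglyMeasurable
      rw [(hmp 1).map_eq] at h2
      exact h2.symm
    rw [h1] at h
    filter_upwards [h] with ω hω
    simpa only [sum_shift] using hω
  · exact (hmp 1).integrable_comp_of_integrable hi
  · intro i j hij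
    exact hind.indepFun (fun h => hij (Nat.succ_injective h))
  · intro i
    refine ⟨(hX.comp (measurable_pi_apply _)).aemeasurable,
      (hX.comp (measurable_pi_apply _)).aemeasurable, ?_⟩
    have h1 : ∀ j : ℕ, Measure.map (fun ω : ℕ → ℝ × ℝ => X (ω j))
        (Measure.infinitePi fun _ : ℕ => ν) = ν.map X := by
      intro j
      have h2 := Measure.map_map (μ := Measure.infinitePi fun _ : ℕ => ν) hX (hmp j).measurable
      rw [(hmp j).map_eq] at h2
      exact h2.symm
    rw [h1, h1]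

theorem main : S_SLLN := by
  intro k ν hν
  have := hν.prob
  have h1 := law ν Prod.fst measurable_fst (int1 hν)
  have h2 := law ν Prod.snd measurable_snd (int2 hν)
  have h3 : ∀ᵐ ω ∂(Measure.infinitePi fun _ : ℕ => ν), ∀ j : ℕ, 0 ≤ (ω j).1 ∧ 0 ≤ (ω j).2 := by
    rw [ae_all_iff]
    intro j
    exact (measurePreserving_eval_infinitePi (fun _ : ℕ => ν) j).quasiMeasurePreserving.ae hν.nn
  filter_upwards [h1, h2, h3] with ω a b c
  exact ⟨c, a, b⟩

end Pool.Agent.Helper29.HQ.SLLN
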