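import Pool.Agent.Helper98.HQ.Spec

/-!
# HQ: the spread (SPR)
-/

set_option autoImplicit false

open MeasureTheory Filter Topology
open scoped ENNReal NNReal

namespace Pool.Agent.Helper29.HQ.SPR

open Pool.Agent.Helper98.HQ

theorem main : S_SPR := by
  intro m w s t M hw hs hsM ht hM
  have hM0 : 0 ≤ M := hs.trans hsM
  set V : Fin (m + 1) → ℝ := fun i => max (w i + (if (i : ℕ) = 0 then s else 0) - t) 0 with hV
  have hup : ∀ i, V i ≤ max (w 0 - t) 0 + M := by
    intro i
    have h0 := le_max_left (w 0 - t) 0
    have h0' := le_max_right (w 0 - t) 0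
    have hi : w i ≤ w (Fin.last m) := hw.1 (Fin.le_last i)
    simp only [hV]
    refine max_le ?_ (by linarith)
    split_ifs with h
    · have : i = 0 := Fin.ext h
      subst this
      linarith
    · linarith
  have hlo : ∀ i, max (w 0 - t) 0 ≤ V i := by
    intro i
    have hi : w 0 ≤ w i := hw.1 (Fin.zero_le i)
    simp only [hV]
    refine max_le_max ?_ le_rfl
    split_ifs with h
    · linarith
    · linarith
  have h1 : kw w s t (Fin.last m) = V (Tuple.sort V (Fin.last m)) := rfl
  have h2 : kw w s t 0 = V (Tuple.sort V 0) := rfl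
  rw [h1, h2]
  have h3 := hup (Tuple.sort V (Fin.last m))
  have h4 := hlo (Tuple.sort V 0)
  linarith

end Pool.Agent.Helper29.HQ.SPR
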